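import Pool.Agent.Helper2.EG.Stmts

set_option autoImplicit false

namespace Pool.Agent.Helper2.EG

theorem st_STR : ST_STR := by
  intro hSTEP hLV n q u hn hq hqn hu hun hcop hdq hdu
  obtain ⟨hLV1, hLV2, -, -⟩ := hLV
  have h0 : St n 0 n 1 n := hLV2 n hn
  have h1 := hSTEP n 0 n 1 n (n + q) q hn h0 (by omega) (by omega) (by ring)
  obtain ⟨Q, hQ⟩ : ∃ Q, Q = n * (n + q) := ⟨_, rfl⟩
  rw [← hQ] at h1 hdu ⊢
  have hQn : n ≤ Q := by
    rw [hQ]
    exact Nat.le_mul_of_pos_right n (by omega)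
  obtain ⟨y, hy⟩ : q ∣ Q + u := by
    have e1 : Q + u = (n ^ 2 + u) + q * n := by rw [hQ]; ring
    rw [e1]
    exact dvd_add hdq (dvd_mul_right q n)
  have hyn : n + q < y := by
    have e1 : q * (n + q) < q * y := by
      rw [← hy, hQ]
      nlinarith [Nat.mul_le_mul hqn hqn]
    exact lt_of_mul_lt_mul_left e1 (Nat.zero_le q)
  have h2 := hSTEP n 1 Q q (n + q) y u hn h1 hyn (by omega) hy.symm
  obtain ⟨z, hz⟩ : u ∣ Q * y + 1 := by
    have e1 : u ∣ q * (Q * y + 1) := by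
      have e2 : q * (Q * y + 1) = (Q ^ 2 + q) + u * Q := by
        have : q * (Q * y + 1) = Q * (q * y) + q := by ring
        rw [this, ← hy]
        ring
      rw [e2]
      exact dvd_add hdu (dvd_mul_right u Q)
    exact (Nat.Coprime.symm hcop).dvd_of_dvd_mul_left e1
  have hyz : y < z := by
    have e1 : u * y < u * z := by
      rw [← hz]
      have : u * y ≤ Q * y := Nat.mul_le_mul_right y (le_trans hun hQn)
      omega
    exact lt_of_mul_lt_mul_left e1 (Nat.zero_le u)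
  have h3 := hSTEP n 2 (Q * y) u y z 1 hn h2 hyz (by omega) hz.symm
  refine ⟨Q * y * z, ?_, ?_⟩
  · refine hLV1 n 3 (Q * y * z) 1 z (Q * y * z) ?_ h3
    exact Nat.le_mul_of_pos_left z (Nat.mul_pos (by omega) (by omega))
  · have e1 : Q * y * z * (u * q ^ 2) = Q * (q * y) * (q * (u * z)) := by ring
    rw [e1, ← hz, ← hy]
    have e2 : q * (Q * y + 1) = Q * (q * y) + q := by ring
    rw [e2, ← hy]

end Pool.Agent.Helper2.EG
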